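import Pool.Agent.H77.KG.Targets

/-!
# The operators on a minimal group (row ZFT of kgr_modules)
-/

set_option autoImplicit false

open Set Pool.Agent.H77.BC Pool.Agent.H77.BD Pool.Agent.H77.KG

namespace Pool.Agent.H39.KGR

section

variable {M : Type} {U : RU M} {G V : Type} [Group G] [AddCommGroup V] [DistribMulAction G V]
  [Cod M G] [Cod M V] [DG U G] [DAb U V] [DA U G V]

private structure Opp (U : RU M) (T : Subgroup G) (W : AddSubgroup V) (r : AddMonoid.End V) :
    Prop where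
  d : DFn U (fun v => r v)
  w : ∀ w ∈ W, r w ∈ W
  c : ∀ t ∈ T, ∀ v, r (t • v) = t • r v

private theorem opp_of_mem {T : Subgroup G} {W : AddSubgroup V}
    (hcomm : ∀ a ∈ T, ∀ b ∈ T, a * b = b * a) (hI : Iv T W) (r : AddMonoid.End V)
    (hr : r ∈ Eg (V := V) T) : Opp U T W r := by
  unfold Eg at hr
  induction hr using Subring.closure_induction with
  | mem f hf =>
    obtain ⟨t, ht, hf⟩ := hf
    refine ⟨?_, ?_, ?_⟩
    · have h1 : DFn U (fun v : V => t • v) := DFn_act (DFn_const _) DFn_id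
      have h2 : (fun v : V => f v) = fun v : V => t • v := funext hf
      rw [h2]
      exact h1
    · intro w hw
      rw [hf]
      exact hI t ht w hw
    · intro t' ht' v
      rw [hf, hf, smul_smul, smul_smul, hcomm t ht t' ht']
  | zero =>
    refine ⟨?_, ?_, ?_⟩
    · have h1 : DFn U (fun _ : V => (0 : V)) := DFn_const _
      exact h1
    · intro w _
      exact W.zero_mem
    · intro t _ v
      show (0 : V) = t • (0 : V)
      rw [smul_zero]
  | one =>
    refine ⟨?_, ?_, ?_⟩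
    · have h1 : DFn U (fun v : V => v) := DFn_id
      exact h1
    · intro w hw
      exact hw
    · intro t _ v
      rfl
  | add f g _ _ ihf ihg =>
    refine ⟨?_, ?_, ?_⟩
    · have h1 : DFn U (fun v : V => f v + g v) := DFn_aadd ihf.d ihg.d
      exact h1
    · intro w hw
      exact W.add_mem (ihf.w w hw) (ihg.w w hw)
    · intro t ht v
      show f (t • v) + g (t • v) = t • (f v + g v)
      rw [ihf.c t ht, ihg.c t ht, smul_add]
  | neg f _ ihf =>
    refine ⟨?_, ?_, ?_⟩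
    · have h1 : DFn U (fun v : V => - f v) := DFn_aneg ihf.d
      exact h1
    · intro w hw
      exact W.neg_mem (ihf.w w hw)
    · intro t ht v
      show - f (t • v) = t • (- f v)
      rw [ihf.c t ht, smul_neg]
  | mul f g _ _ ihf ihg =>
    refine ⟨?_, ?_, ?_⟩
    · have h1 : DFn U (fun v : V => f (g v)) := DFn_comp (g := fun v : V => f v) ihf.d ihg.d
      exact h1
    · intro w hw
      exact ihf.w _ (ihg.w w hw)
    · intro t ht v
      show f (g (t • v)) = t • f (g v)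
      rw [ihg.c t ht, ihf.c t ht]

/-- The kernel of an operator on `W`. -/
private theorem ker_fin {T : Subgroup G} {W : AddSubgroup V} (hW : Mn U T W)
    {r : AddMonoid.End V} (h : Opp U T W r) (hr : ¬ ∀ w ∈ W, r w = 0) :
    ((W ⊓ AddMonoidHom.ker r : AddSubgroup V) : Set V).Finite := by
  refine hW.2.2.2 (W ⊓ AddMonoidHom.ker r) inf_le_left ?_ ?_ ?_
  · have h1 : U.D {v : V | v ∈ W ∧ r v = 0} :=
      D_and hW.1 (D_eqf h.d (DFn_const _))
    have h2 : ((W ⊓ AddMonoidHom.ker r : AddSubgroup V) : Set V) = {v : V | v ∈ W ∧ r v = 0} := by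
      ext v
      exact Iff.rfl
    rw [h2]
    exact h1
  · intro t ht v hv
    refine ⟨hW.2.1 t ht v hv.1, ?_⟩
    have h1 : r v = 0 := hv.2
    show r (t • v) = 0
    rw [h.c t ht, h1, smul_zero]
  · intro heq
    apply hr
    intro w hw
    have h1 : w ∈ (W ⊓ AddMonoidHom.ker r : AddSubgroup V) := by
      rw [heq]
      exact hw
    exact h1.2

private theorem surj (hMNC : T_MNC) (hAHM : T_AHM) {T : Subgroup G} {W : AddSubgroup V}
    (hW : Mn U T W) {r : AddMonoid.End V} (h : Opp U T W r) (hr : ¬ ∀ w ∈ W, r w = 0) :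
    ∀ w ∈ W, ∃ w' ∈ W, r w' = w := by
  obtain ⟨h1, h2, -⟩ := (hAHM U r h.d).1 W hW.1
  have hfin := ker_fin hW h hr
  have hD : U.D ((W ⊓ AddMonoidHom.ker r : AddSubgroup V) : Set V) := by
    have h1 : U.D {v : V | v ∈ W ∧ r v = 0} :=
      D_and hW.1 (D_eqf h.d (DFn_const _))
    have h2 : ((W ⊓ AddMonoidHom.ker r : AddSubgroup V) : Set V) = {v : V | v ∈ W ∧ r v = 0} := by
      ext v
      exact Iff.rfl
    rw [h2]
    exact h1
  have h0 : U.R ((W ⊓ AddMonoidHom.ker r : AddSubgroup V) : Set V) = 0 :=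
    ((Pool.Agent.H77.BCP.a_RKA U).fin hD ⟨0, AddSubgroup.zero_mem _⟩).2 hfin
  have hc : CnS U W := hMNC U T W hW
  have hle : W.map (r : V →+ V) ≤ W := by
    rintro v ⟨w, hw, rfl⟩
    exact h.w w hw
  have heq : W.map (r : V →+ V) = W := by
    refine hc.2 _ hle h1 ?_
    rw [h2, h0, add_zero]
  intro w hw
  rw [← heq] at hw
  obtain ⟨w', hw', h3⟩ := hw
  exact ⟨w', hw', h3⟩

end

theorem pf_ZFT (hIND : T_IND) (hFCO : T_FCO) (hMNC : T_MNC) (_hADT : T_ADT) (hAHM : T_AHM) :
    T_ZFT := by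
  intro M U G V _ _ _ _ _ _ _ _ T W hT hcomm hW hmove
  have hopp : ∀ r ∈ Eg (V := V) T, Opp U T W r := fun r hr => opp_of_mem hcomm hW.2.1 r hr
  -- finite invariant subgroups
  have hfix : ∀ A : AddSubgroup V, A ≤ W → Iv T A → (A : Set V).Finite → ∀ a ∈ A, ∀ t ∈ T,
      t • a = a := by
    intro A _ hA hfin a ha
    refine hFCO U T a hT (hfin.subset ?_)
    rintro x ⟨g, hg, rfl⟩
    exact hA g hg a ha
  have hinv : ∀ r : AddMonoid.End V, Opp U T W r → Iv T (W ⊓ AddMonoidHom.ker r) := by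
    intro r hr t ht v hv
    refine ⟨hW.2.1 t ht v hv.1, ?_⟩
    have h1 : r v = 0 := hv.2
    show r (t • v) = 0
    rw [hr.c t ht, h1, smul_zero]
  -- the points fixed by `T`
  have hZ : ∀ z ∈ W, (∀ t ∈ T, t • z = z) → z = 0 := by
    obtain ⟨t₀, ht₀, w₀, hw₀, hne⟩ := hmove
    obtain ⟨f₀, hf₀⟩ : ∃ f : AddMonoid.End V, ∀ v, f v = t₀ • v :=
      ⟨DistribSMul.toAddMonoidHom V t₀, fun v => rfl⟩
    have hf₀E : f₀ ∈ Eg (V := V) T := Subring.subset_closure ⟨t₀, ht₀, hf₀⟩
    obtain ⟨s, hs⟩ : ∃ s, s = f₀ - 1 := ⟨_, rfl⟩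
    have hsE : s ∈ Eg (V := V) T := by
      rw [hs]
      exact Subring.sub_mem _ hf₀E (Subring.one_mem _)
    have hsv : ∀ v, s v = t₀ • v - v := by
      intro v
      rw [hs]
      show f₀ v - v = _
      rw [hf₀]
    have hs0 : ¬ ∀ w ∈ W, s w = 0 := by
      intro h
      apply hne
      have h1 := h w₀ hw₀
      rw [hsv] at h1
      exact sub_eq_zero.1 h1
    have hsur := surj hMNC hAHM hW (hopp s hsE) hs0
    have hssE : s * s ∈ Eg (V := V) T := Subring.mul_mem _ hsE hsE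
    have hss0 : ¬ ∀ w ∈ W, (s * s) w = 0 := by
      intro h
      apply hs0
      intro w hw
      obtain ⟨w', hw', rfl⟩ := hsur w hw
      exact h w' hw'
    have hkf := ker_fin hW (hopp _ hssE) hss0
    intro z hz hzf
    obtain ⟨y, hy, rfl⟩ := hsur z hz
    have h1 : y ∈ (W ⊓ AddMonoidHom.ker (s * s) : AddSubgroup V) := by
      refine ⟨hy, ?_⟩
      show s (s y) = 0
      rw [hsv (s y), hzf t₀ ht₀, sub_self]
    have h2 := hfix _ inf_le_left (hinv _ (hopp _ hssE)) hkf y h1 t₀ ht₀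
    rw [hsv y, h2, sub_self]
  refine ⟨?_, ?_⟩
  · intro r hr
    by_cases h0 : ∀ w ∈ W, r w = 0
    · exact Or.inl h0
    · right
      refine ⟨?_, surj hMNC hAHM hW (hopp r hr) h0⟩
      intro w hw hrw
      refine hZ w hw ?_
      exact hfix _ inf_le_left (hinv _ (hopp r hr)) (ker_fin hW (hopp r hr) h0) w ⟨hw, hrw⟩
  · intro w hw hw0
    refine hIND U T W hT.1 hW w hw ?_
    intro hfin
    apply hw0
    refine hZ w hw ?_
    refine hFCO U T w hT ?_
    exact hfin

end Pool.Agent.H39.KGR
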